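import Pool.Agent.BEW.StmtsS
import Pool.Agent.Helper92_BEL.MLP

set_option autoImplicit false

/-!
# Squad BEW, row OPB: the potential of a thin shell
-/

namespace Pool.Agent.BEW.H42

open Set Filter Topology MeasureTheory
open scoped InnerProductSpace ENNReal NNReal
open Pool.Agent.BE01 Pool.Agent.BEL Pool.Agent.BEG Pool.Agent.BEH Pool.Agent.BER Pool.Agent.BEW

theorem diff_le {β r : ℝ} (hβ : 1 ≤ β) (hr : r ∈ Ioo β (β + Real.pi)) :
    |1 / r ^ 2 - 1 / β ^ 2| ≤ 8 / β ^ 3 := by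
  have hβ0 : 0 < β := by linarith
  have hr0 : 0 < r := hβ0.trans hr.1
  have hpi : Real.pi < 4 := Real.pi_lt_four
  have h1 : 1 / r ^ 2 - 1 / β ^ 2 = -((r - β) * (r + β) / (β ^ 2 * r ^ 2)) := by
    field_simp
    ring
  rw [h1, abs_neg, abs_of_nonneg (by
    have := hr.1
    have h3 : 0 ≤ r - β := by linarith
    positivity), div_le_div_iff₀ (by positivity) (by positivity)]
  have h2 : (r - β) ≤ 4 := by
    have := hr.2
    linarith
  have h3 : (r + β) * β ≤ 2 * r ^ 2 := by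
    nlinarith [hr.1]
  have h4 : (r - β) * ((r + β) * β) ≤ 4 * (2 * r ^ 2) := by
    apply mul_le_mul h2 h3 (by positivity) (by norm_num)
  calc (r - β) * (r + β) * β ^ 3 = ((r - β) * ((r + β) * β)) * β ^ 2 := by ring
    _ ≤ (4 * (2 * r ^ 2)) * β ^ 2 := mul_le_mul_of_nonneg_right h4 (by positivity)
    _ = 8 * (β ^ 2 * r ^ 2) := by ring

/-- OPB -/
theorem opb (nuf : NufStmt) : OpbStmt := by
  intro d β hd hβ
  have hβ0 : 0 < β := by linarith
  obtain ⟨hfin, -, hae, -, -⟩ := nuf d β hβ0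
  haveI := hfin
  obtain ⟨f0, hf0⟩ : ∃ f0 : ℝ → ℝ,
      f0 = (Ioo β (β + Real.pi)).indicator fun r => cd d / r ^ 2 := ⟨_, rfl⟩
  have hm : Measurable f0 := by
    rw [hf0]
    exact (measurable_const.div (measurable_id.pow_const 2)).indicator measurableSet_Ioo
  have hb : ∀ x, |f0 x| ≤ |cd d| := by
    intro x
    rw [hf0]
    by_cases hx : x ∈ Ioo β (β + Real.pi)
    · rw [indicator_of_mem hx, abs_div]
      have h1 : 1 ≤ |x ^ 2| := by
        rw [abs_of_nonneg (sq_nonneg x)]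
        nlinarith [hx.1]
      exact div_le_self (abs_nonneg _) h1
    · rw [indicator_of_notMem hx, abs_zero]
      exact abs_nonneg _
  obtain ⟨h1, h2, h3, h4, h5, T, hT⟩ :=
    Pool.Agent.BEL.H92.mlp ℝ (nu d β) f0 (|cd d|) hm hb
  have hfe : ∀ r ∈ Ioo β (β + Real.pi), f0 r = cd d / r ^ 2 := by
    intro r hr
    rw [hf0, indicator_of_mem hr]
  have hTe : ∀ f, T f =ᵐ[nu d β] fun r => cd d / r ^ 2 * f r := by
    intro f
    rw [hT f]
    filter_upwards [h1 f, hae] with r ha hr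
    rw [ha, hfe r hr]
  refine ⟨T, hTe, ?_, ?_⟩
  · intro f g
    rw [real_inner_comm (T g) f, hT f, hT g, h5, h5]
    refine integral_congr_ae (Eventually.of_forall fun x => ?_)
    show f0 x * f x * g x = f0 x * g x * f x
    ring
  · intro f
    refine Lp.norm_le_mul_norm_of_ae_le_mul ?_
    filter_upwards [hTe f, hae, Lp.coeFn_sub (T f) ((cd d / β ^ 2) • f),
      Lp.coeFn_smul (cd d / β ^ 2) f] with r ha hr hs hs'
    rw [hs, Pi.sub_apply, ha, hs', Pi.smul_apply, smul_eq_mul, ← sub_mul, norm_mul]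
    refine mul_le_mul_of_nonneg_right ?_ (norm_nonneg _)
    have h6 : cd d / r ^ 2 - cd d / β ^ 2 = cd d * (1 / r ^ 2 - 1 / β ^ 2) := by ring
    rw [h6, Real.norm_eq_abs, abs_mul]
    calc |cd d| * |1 / r ^ 2 - 1 / β ^ 2| ≤ |cd d| * (8 / β ^ 3) :=
          mul_le_mul_of_nonneg_left (diff_le hβ hr) (abs_nonneg _)
      _ = 8 * |cd d| / β ^ 3 := by ring

end Pool.Agent.BEW.H42
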